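import Pool.Agent.MMD.Graph

/-!
# Bounds for the mixed metric dimension of the graph of the reduction
-/

set_option autoImplicit false

namespace Pool.Agent.MMD

/-- `C` is a cover of the universe -/
def IsCover {u m : ℕ} (inc : Fin m → Fin u → Prop) (C : Finset (Fin m)) : Prop :=
  ∀ e, ∃ i ∈ C, inc i e

namespace Vx

variable {t u m : ℕ} {inc : Fin m → Fin u → Prop}

/-- a mixed resolving set -/
def rset (t u : ℕ) {m : ℕ} (C : Finset (Fin m)) : Finset (Vx t u m) :=
  {bot, top} ∪ Finset.univ.image al ∪ Finset.univ.image ga ∪ Finset.univ.image be ∪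
    Finset.univ.image bb ∪ (Finset.univ ×ˢ C).image fun p => ts p.1 p.2

theorem card_rset (C : Finset (Fin m)) :
    (rset t u C).card ≤ t * C.card + 2 * t + (m + u + 2) := by
  have h1 : ({bot, top} : Finset (Vx t u m)).card ≤ 2 := Finset.card_le_two
  have h2 : (Finset.univ.image (al : Fin t → Vx t u m)).card ≤ t := by
    simpa using (Finset.card_image_le (s := Finset.univ) (f := (al : Fin t → Vx t u m)))
  have h3 : (Finset.univ.image (ga : Fin m → Vx t u m)).card ≤ m := by
    simpa using (Finset.card_image_le (s := Finset.univ) (f := (ga : Fin m → Vx t u m)))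
  have h4 : (Finset.univ.image (be : Fin t → Vx t u m)).card ≤ t := by
    simpa using (Finset.card_image_le (s := Finset.univ) (f := (be : Fin t → Vx t u m)))
  have h5 : (Finset.univ.image (bb : Fin u → Vx t u m)).card ≤ u := by
    simpa using (Finset.card_image_le (s := Finset.univ) (f := (bb : Fin u → Vx t u m)))
  have h6 : ((Finset.univ ×ˢ C).image fun p : Fin t × Fin m => (ts p.1 p.2 : Vx t u m)).card ≤
      t * C.card := by
    refine Finset.card_image_le.trans ?_
    rw [Finset.card_product, Finset.card_univ, Fintype.card_fin]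
  unfold rset
  refine (Finset.card_union_le _ _).trans ?_
  refine (Nat.add_le_add_right (Finset.card_union_le _ _) _).trans ?_
  refine (Nat.add_le_add_right (Nat.add_le_add_right (Finset.card_union_le _ _) _) _).trans ?_
  refine (Nat.add_le_add_right (Nat.add_le_add_right (Nat.add_le_add_right
    (Finset.card_union_le _ _) _) _) _).trans ?_
  refine (Nat.add_le_add_right (Nat.add_le_add_right (Nat.add_le_add_right
    (Nat.add_le_add_right (Finset.card_union_le _ _) _) _) _) _).trans ?_
  omega

theorem mem_rset {C : Finset (Fin m)} {v : Vx t u m} (h : rk v ≠ 2) (h' : rk v ≠ 3) :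
    v ∈ rset t u C := by
  unfold rset
  cases v <;> simp_all [rk]

theorem mem_rset_ts {C : Finset (Fin m)} {j : Fin t} {i : Fin m} (h : i ∈ C) :
    ts j i ∈ rset t u C := by
  unfold rset
  simp [h]

theorem rset_resolving (ht : 2 ≤ t) (hu : 0 < u) (hne : ∀ i, ∃ e, inc i e)
    {C : Finset (Fin m)} (hC : IsCover inc C) : MixedResolving (gr t inc) (rset t u C) := by
  have hG := connected (inc := inc) (by omega : 0 < t) hu
  have hrk := adj_rk (inc := inc) (t := t)
  refine mixedResolving_of_graded (ρ := rk) (R := 5) (s := bot) (s' := top) hrk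
    (fun v => (dist_bot' (by omega) hu v).2) (dist_top (by omega) hu hne)
    (mem_rset (by simp [rk]) (by simp [rk])) (mem_rset (by simp [rk]) (by simp [rk])) ?_ ?_
  · intro v w hvw hr
    -- touching vertices
    have key : ∀ z : Vx t u m, z ≠ v → z ≠ w →
        (((gr t inc).Adj z v ∧ ¬ (gr t inc).Adj z w) ∨
        (¬ (gr t inc).Adj z v ∧ (gr t inc).Adj z w)) →
        elemDist (gr t inc) z (Sum.inl v) ≠ elemDist (gr t inc) z (Sum.inl w) := by
      rintro z hzv hzw (⟨h1, h2⟩ | ⟨h1, h2⟩)
      · refine sep_of_touch hG (touch_vertex.2 (Or.inr h1)) fun h => ?_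
        rcases touch_vertex.1 h with h | h
        · exact hzw h
        · exact h2 h
      · refine (sep_of_touch hG (touch_vertex.2 (Or.inr h2)) fun h => ?_).symm
        rcases touch_vertex.1 h with h | h
        · exact hzv h
        · exact h1 h
    by_cases h2 : rk v = 2
    · obtain ⟨z, hz, hsep⟩ := sep_two (inc := inc) ht h2 (by omega) hvw
      refine ⟨z, mem_rset (by omega) (by omega), key z ?_ ?_ hsep⟩
      · rintro rfl; omega
      · rintro rfl; omega
    by_cases h3 : rk v = 3
    · obtain ⟨z, hz, hsep⟩ := sep_three (inc := inc) (t := t) hC h3 (by omega) hvw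
      have hz' : z ∈ rset t u C ∧ rk z ≠ 3 := by
        rcases hz with hz | ⟨j, i, hi, rfl⟩
        · exact ⟨mem_rset (by omega) (by omega), by omega⟩
        · exact ⟨mem_rset_ts hi, by simp [rk]⟩
      refine ⟨z, hz'.1, key z ?_ ?_ hsep⟩
      · rintro rfl; exact hz'.2 h3
      · rintro rfl; omega
    · exact ⟨v, mem_rset h2 h3, sep_of_mem hG rfl hvw⟩
  · intro v w v' w' h h' hr hr' hrr hne'
    -- separation by membership
    have key1 : ∀ z, z ∈ rset t u C → (z = v ∨ z = w) → z ≠ v' → z ≠ w' →
        ∃ z ∈ rset t u C, elemDist (gr t inc) z (Sum.inr ⟨s(v, w), h⟩) ≠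
          elemDist (gr t inc) z (Sum.inr ⟨s(v', w'), h'⟩) := by
      intro z hz hzv h1 h2
      refine ⟨z, hz, sep_of_mem hG (mem_edge.2 hzv) fun h3 => ?_⟩
      rcases mem_edge.1 h3 with h3 | h3
      · exact h1 h3
      · exact h2 h3
    -- separation by touching
    have key2 : ∀ z, z ∈ rset t u C →
        (((gr t inc).Adj z v ∨ (gr t inc).Adj z w) ∧ z ≠ v' ∧ ¬ (gr t inc).Adj z v' ∧ z ≠ w' ∧
          ¬ (gr t inc).Adj z w' ∨
        ((gr t inc).Adj z v' ∨ (gr t inc).Adj z w') ∧ z ≠ v ∧ ¬ (gr t inc).Adj z v ∧ z ≠ w ∧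
          ¬ (gr t inc).Adj z w) →
        ∃ z ∈ rset t u C, elemDist (gr t inc) z (Sum.inr ⟨s(v, w), h⟩) ≠
          elemDist (gr t inc) z (Sum.inr ⟨s(v', w'), h'⟩) := by
      rintro z hz (⟨h1, h2, h3, h4, h5⟩ | ⟨h1, h2, h3, h4, h5⟩)
      · refine ⟨z, hz, sep_of_touch hG (touch_edge.2 (by tauto)) fun h6 => ?_⟩
        rcases touch_edge.1 h6 with h6 | h6 | h6 | h6
        exacts [h2 h6, h3 h6, h4 h6, h5 h6]
      · refine ⟨z, hz, (sep_of_touch hG (touch_edge.2 (by tauto)) fun h6 => ?_).symm⟩
        rcases touch_edge.1 h6 with h6 | h6 | h6 | h6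
        exacts [h2 h6, h3 h6, h4 h6, h5 h6]
    -- non-adjacency from the ranks
    have nadj : ∀ a b : Vx t u m, rk b ≠ rk a + 1 → rk a ≠ rk b + 1 → ¬ (gr t inc).Adj a b := by
      intro a b h1 h2 h3
      rcases hrk a b h3 with h4 | h4
      · exact h1 h4
      · exact h2 h4
    have nne : ∀ a b : Vx t u m, rk a ≠ rk b → a ≠ b := fun a b h1 h2 => h1 (by rw [h2])
    have hw5 := rk_le w
    by_cases hv2 : rk v = 2
    · -- level 2
      by_cases hww : w = w'
      · subst hww
        have hvv : v ≠ v' := by tauto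
        obtain ⟨z, hz, hsep⟩ := sep_two (inc := inc) ht hv2 (by omega) hvv
        refine key2 z (mem_rset (by omega) (by omega)) ?_
        rcases hsep with ⟨h1, h2⟩ | ⟨h1, h2⟩
        · exact Or.inl ⟨Or.inl h1, nne _ _ (by omega), h2, nne _ _ (by omega),
            nadj _ _ (by omega) (by omega)⟩
        · exact Or.inr ⟨Or.inl h2, nne _ _ (by omega), h1, nne _ _ (by omega),
            nadj _ _ (by omega) (by omega)⟩
      · obtain ⟨z, hz, hsep⟩ := sep_three (inc := inc) (t := t) hC (by omega : rk w = 3)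
          (by omega : rk w' = 3) hww
        have hz' : z ∈ rset t u C ∧ (rk z = 4 ∨ rk z = 2) := by
          rcases hz with hz | ⟨j, i, hi, rfl⟩
          · exact ⟨mem_rset (by omega) (by omega), Or.inl hz⟩
          · exact ⟨mem_rset_ts hi, Or.inr rfl⟩
        refine key2 z hz'.1 ?_
        rcases hsep with ⟨h1, h2⟩ | ⟨h1, h2⟩
        · refine Or.inl ⟨Or.inr h1, ?_, nadj _ _ (by omega) (by omega), nne _ _ (by omega), h2⟩
          rintro rfl
          exact h2 h'
        · refine Or.inr ⟨Or.inr h2, ?_, nadj _ _ (by omega) (by omega), nne _ _ (by omega), h1⟩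
          rintro rfl
          exact h1 h
    by_cases hv1 : rk v = 1
    · by_cases hvv : v = v'
      · subst hvv
        have hww : w ≠ w' := by tauto
        obtain ⟨z, hz, hsep⟩ := sep_two (inc := inc) ht (by omega : rk w = 2)
          (by omega : rk w' = 2) hww
        have hzv : z ≠ v := by
          rintro rfl
          rcases hsep with ⟨h1, h2⟩ | ⟨h1, h2⟩
          · exact h2 h'
          · exact h1 h
        refine key2 z (mem_rset (by omega) (by omega)) ?_
        rcases hsep with ⟨h1, h2⟩ | ⟨h1, h2⟩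
        · exact Or.inl ⟨Or.inr h1, hzv, nadj _ _ (by omega) (by omega), nne _ _ (by omega), h2⟩
        · exact Or.inr ⟨Or.inr h2, hzv, nadj _ _ (by omega) (by omega), nne _ _ (by omega), h1⟩
      · exact key1 v (mem_rset (by omega) (by omega)) (Or.inl rfl) hvv (nne _ _ (by omega))
    by_cases hv3 : rk v = 3
    · by_cases hww : w = w'
      · subst hww
        have hvv : v ≠ v' := by tauto
        obtain ⟨z, hz, hsep⟩ := sep_three (inc := inc) (t := t) hC hv3 (by omega) hvv
        have hz' : z ∈ rset t u C ∧ (rk z = 4 ∨ rk z = 2) := by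
          rcases hz with hz | ⟨j, i, hi, rfl⟩
          · exact ⟨mem_rset (by omega) (by omega), Or.inl hz⟩
          · exact ⟨mem_rset_ts hi, Or.inr rfl⟩
        have hzw : z ≠ w := by
          rintro rfl
          rcases hsep with ⟨h1, h2⟩ | ⟨h1, h2⟩
          · exact h2 h'.symm
          · exact h1 h.symm
        refine key2 z hz'.1 ?_
        rcases hsep with ⟨h1, h2⟩ | ⟨h1, h2⟩
        · exact Or.inl ⟨Or.inl h1, nne _ _ (by omega), h2, hzw, nadj _ _ (by omega) (by omega)⟩
        · exact Or.inr ⟨Or.inl h2, nne _ _ (by omega), h1, hzw, nadj _ _ (by omega) (by omega)⟩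
      · exact key1 w (mem_rset (by omega) (by omega)) (Or.inr rfl) (nne _ _ (by omega)) hww
    by_cases hvv : v = v'
    · have hww : w ≠ w' := by tauto
      exact key1 w (mem_rset (by omega) (by omega)) (Or.inr rfl) (nne _ _ (by omega)) hww
    · exact key1 v (mem_rset (by omega) (by omega)) (Or.inl rfl) hvv (nne _ _ (by omega))

end Vx

end Pool.Agent.MMD
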