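import Mathlib

/-!
# The mixed metric dimension of a graph
-/

set_option autoImplicit false

namespace Pool.Agent.MMD

variable {V : Type}

/-- The distance from the vertex `w` to an element of the graph, i.e. to a vertex or to an edge
(the distance to the nearer end). -/
noncomputable def elemDist (G : SimpleGraph V) (w : V) : V ⊕ G.edgeSet → ℕ
  | Sum.inl v => G.dist w v
  | Sum.inr e => Sym2.lift ⟨fun a b => min (G.dist w a) (G.dist w b), fun _ _ => min_comm _ _⟩ e.1

/-- Every two distinct elements (vertices or edges) are distinguished by their distances from a
vertex of `S`. -/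
def MixedResolving (G : SimpleGraph V) (S : Finset V) : Prop :=
  ∀ p q : V ⊕ G.edgeSet, p ≠ q → ∃ w ∈ S, elemDist G w p ≠ elemDist G w q

/-- The mixed metric dimension: the least size of a mixed resolving set. -/
noncomputable def mdim (G : SimpleGraph V) : ℕ :=
  sInf {n | ∃ S : Finset V, MixedResolving G S ∧ S.card = n}

end Pool.Agent.MMD
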