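import Pool.Agent.MMD.Defs

/-!
# Mixed resolving sets of graded graphs
-/

set_option autoImplicit false

namespace Pool.Agent.MMD

variable {V : Type} {G : SimpleGraph V}

theorem rank_le_walk {ρ : V → ℕ} (h : ∀ v w, G.Adj v w → ρ w ≤ ρ v + 1) {v w : V}
    (p : G.Walk v w) : ρ w ≤ ρ v + p.length := by
  induction p with
  | nil => simp
  | cons ha _ ih =>
    have := h _ _ ha
    rw [SimpleGraph.Walk.length_cons]
    omega

/-- distances from the bottom element -/
theorem dist_bot {ρ : V → ℕ} {s : V} (h : ∀ v w, G.Adj v w → ρ w ≤ ρ v + 1) (hs : ρ s = 0)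
    (hd : ∀ v, v ≠ s → ∃ w, G.Adj w v ∧ ρ v = ρ w + 1) (v : V) :
    G.Reachable s v ∧ G.dist s v = ρ v := by
  have key : ∀ n v, ρ v = n → G.Reachable s v ∧ G.dist s v ≤ ρ v := by
    intro n
    induction n with
    | zero =>
      intro v hv
      by_cases hvs : v = s
      · subst hvs
        exact ⟨SimpleGraph.Reachable.refl _, by simp⟩
      · obtain ⟨w, -, hw⟩ := hd v hvs
        omega
    | succ n ih =>
      intro v hv
      have hvs : v ≠ s := by
        rintro rfl
        omega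
      obtain ⟨w, hadj, hw⟩ := hd v hvs
      obtain ⟨h1, h2⟩ := ih w (by omega)
      refine ⟨h1.trans hadj.reachable, ?_⟩
      obtain ⟨p, hp⟩ := h1.exists_walk_length_eq_dist
      refine (SimpleGraph.dist_le (p.concat hadj)).trans ?_
      rw [SimpleGraph.Walk.length_concat]
      omega
  obtain ⟨h1, h2⟩ := key _ v rfl
  refine ⟨h1, le_antisymm h2 ?_⟩
  obtain ⟨p, hp⟩ := h1.exists_walk_length_eq_dist
  have := rank_le_walk h p
  omega

/-- the vertices of an element -/
def Mem (v : V) : V ⊕ G.edgeSet → Prop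
  | Sum.inl w => v = w
  | Sum.inr e => v ∈ e.1

theorem elemDist_le {w v : V} {p : V ⊕ G.edgeSet} (h : Mem v p) : elemDist G w p ≤ G.dist w v := by
  rcases p with p | ⟨e, he⟩
  · obtain rfl := h
    exact le_rfl
  · induction e using Sym2.ind with
    | _ a b =>
      change min (G.dist w a) (G.dist w b) ≤ _
      have h' : v ∈ s(a, b) := h
      rw [Sym2.mem_iff] at h'
      rcases h' with rfl | rfl
      · exact min_le_left _ _
      · exact min_le_right _ _

theorem exists_elemDist (w : V) (p : V ⊕ G.edgeSet) : ∃ v, Mem v p ∧ elemDist G w p = G.dist w v := by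
  rcases p with p | ⟨e, he⟩
  · exact ⟨p, rfl, rfl⟩
  · induction e using Sym2.ind with
    | _ a b =>
      change ∃ v, v ∈ s(a, b) ∧ min (G.dist w a) (G.dist w b) = _
      rcases min_choice (G.dist w a) (G.dist w b) with h | h
      · exact ⟨a, Sym2.mem_mk_left _ _, h⟩
      · exact ⟨b, Sym2.mem_mk_right _ _, h⟩

theorem elemDist_zero (hG : G.Connected) {w : V} {p : V ⊕ G.edgeSet} :
    elemDist G w p = 0 ↔ Mem w p := by
  constructor
  · intro h
    obtain ⟨v, hv, h1⟩ := exists_elemDist w p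
    rw [h] at h1
    rwa [hG.dist_eq_zero_iff.1 h1.symm]
  · intro h
    have := elemDist_le (w := w) h
    simpa using this

/-- `w` belongs to the element or is adjacent to it -/
def Touch (w : V) (p : V ⊕ G.edgeSet) : Prop := ∃ v, Mem v p ∧ (w = v ∨ G.Adj w v)

theorem elemDist_le_one (hG : G.Connected) {w : V} {p : V ⊕ G.edgeSet} :
    elemDist G w p ≤ 1 ↔ Touch w p := by
  constructor
  · intro h
    obtain ⟨v, hv, h1⟩ := exists_elemDist w p
    refine ⟨v, hv, ?_⟩
    rcases Nat.lt_or_ge 0 (G.dist w v) with h2 | h2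
    · right
      rw [← SimpleGraph.dist_eq_one_iff_adj]
      omega
    · left
      exact hG.dist_eq_zero_iff.1 (by omega)
  · rintro ⟨v, hv, h | h⟩
    · subst h
      rw [(elemDist_zero hG).2 hv]
      exact zero_le_one
    · refine (elemDist_le hv).trans ?_
      rw [SimpleGraph.dist_eq_one_iff_adj.2 h]

theorem sep_of_mem (hG : G.Connected) {w : V} {p q : V ⊕ G.edgeSet} (hp : Mem w p)
    (hq : ¬ Mem w q) : elemDist G w p ≠ elemDist G w q := by
  intro h
  rw [(elemDist_zero hG).2 hp] at h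
  exact hq ((elemDist_zero hG).1 h.symm)

theorem sep_of_touch (hG : G.Connected) {w : V} {p q : V ⊕ G.edgeSet} (hp : Touch w p)
    (hq : ¬ Touch w q) : elemDist G w p ≠ elemDist G w q := by
  intro h
  apply hq
  rw [← elemDist_le_one hG, ← h]
  exact (elemDist_le_one hG).2 hp

theorem exists_last {a b : V} (p : G.Walk a b) (hab : a ≠ b) :
    ∃ y, ∃ q : G.Walk a y, ∃ _ : G.Adj y b, p.length = q.length + 1 := by
  cases p with
  | nil => exact absurd rfl hab
  | cons h p =>
    obtain ⟨y, q, h', hq⟩ := SimpleGraph.Walk.exists_cons_eq_concat h p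
    exact ⟨y, q, h', by rw [hq, SimpleGraph.Walk.length_concat]⟩

/-- Every vertex but `v` is at most as far from `v'` as from `v` if the neighbours of `v` are
neighbours of `v'`. -/
theorem dist_le_of_nbrs (hG : G.Connected) {v v' : V} (h : ∀ y, G.Adj y v → G.Adj y v') {w : V}
    (hw : w ≠ v) : G.dist w v' ≤ G.dist w v := by
  obtain ⟨p, hp⟩ := hG.exists_walk_length_eq_dist w v
  obtain ⟨y, q, hadj, hq⟩ := exists_last p hw
  have h1 : G.dist w v' ≤ (q.concat (h y hadj)).length := SimpleGraph.dist_le _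
  rw [SimpleGraph.Walk.length_concat] at h1
  omega

theorem touch_vertex {z v : V} : Touch (G := G) z (Sum.inl v) ↔ z = v ∨ G.Adj z v := by
  constructor
  · rintro ⟨y, hy, h⟩
    obtain rfl : y = v := hy
    exact h
  · intro h
    exact ⟨v, rfl, h⟩

theorem touch_edge {z v w : V} {h : G.Adj v w} :
    Touch z (Sum.inr ⟨s(v, w), h⟩) ↔ z = v ∨ G.Adj z v ∨ z = w ∨ G.Adj z w := by
  constructor
  · rintro ⟨y, hy, h⟩
    have hy' : y ∈ s(v, w) := hy
    rw [Sym2.mem_iff] at hy'
    rcases hy' with rfl | rfl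
    · tauto
    · tauto
  · rintro (h | h | h | h)
    · exact ⟨v, Sym2.mem_mk_left _ _, Or.inl h⟩
    · exact ⟨v, Sym2.mem_mk_left _ _, Or.inr h⟩
    · exact ⟨w, Sym2.mem_mk_right _ _, Or.inl h⟩
    · exact ⟨w, Sym2.mem_mk_right _ _, Or.inr h⟩

theorem mem_edge {z v w : V} {h : G.Adj v w} :
    Mem z (Sum.inr ⟨s(v, w), h⟩ : V ⊕ G.edgeSet) ↔ z = v ∨ z = w := by
  change z ∈ s(v, w) ↔ _
  rw [Sym2.mem_iff]

/-- graded graphs -/
theorem mixedResolving_of_graded {ρ : V → ℕ} {R : ℕ} {s s' : V} {S : Finset V}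
    (hadj : ∀ v w, G.Adj v w → ρ w = ρ v + 1 ∨ ρ v = ρ w + 1)
    (hs : ∀ v, G.dist s v = ρ v) (hs' : ∀ v, G.dist s' v + ρ v = R) (hsS : s ∈ S) (hsS' : s' ∈ S)
    (hV : ∀ v w, v ≠ w → ρ v = ρ w →
      ∃ z ∈ S, elemDist G z (Sum.inl v) ≠ elemDist G z (Sum.inl w))
    (hE : ∀ v w v' w' (h : G.Adj v w) (h' : G.Adj v' w'), ρ w = ρ v + 1 → ρ w' = ρ v' + 1 →
      ρ v = ρ v' → (v ≠ v' ∨ w ≠ w') →
      ∃ z ∈ S, elemDist G z (Sum.inr ⟨s(v, w), h⟩) ≠ elemDist G z (Sum.inr ⟨s(v', w'), h'⟩)) :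
    MixedResolving G S := by
  have key : ∀ p : V ⊕ G.edgeSet, (∃ v, p = Sum.inl v ∧ elemDist G s p = ρ v ∧
      elemDist G s' p + ρ v = R) ∨ (∃ v w, ∃ h : G.Adj v w, ρ w = ρ v + 1 ∧
      p = Sum.inr ⟨s(v, w), h⟩ ∧ elemDist G s p = ρ v ∧ elemDist G s' p + ρ v + 1 = R) := by
    rintro (v | ⟨e, he⟩)
    · exact Or.inl ⟨v, rfl, hs v, hs' v⟩
    · right
      induction e using Sym2.ind with
      | _ a b =>
        have hab : G.Adj a b := he
        have h1 := hs a
        have h2 := hs b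
        have h3 := hs' a
        have h4 := hs' b
        rcases hadj a b hab with h | h
        · refine ⟨a, b, hab, h, rfl, ?_, ?_⟩
          · change min (G.dist s a) (G.dist s b) = _
            omega
          · change min (G.dist s' a) (G.dist s' b) + ρ a + 1 = R
            omega
        · refine ⟨b, a, hab.symm, h, ?_, ?_, ?_⟩
          · exact congrArg Sum.inr (Subtype.ext Sym2.eq_swap)
          · change min (G.dist s a) (G.dist s b) = _
            omega
          · change min (G.dist s' a) (G.dist s' b) + ρ b + 1 = R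
            omega
  intro p q hpq
  by_cases h1 : elemDist G s p = elemDist G s q
  swap
  · exact ⟨s, hsS, h1⟩
  by_cases h2 : elemDist G s' p = elemDist G s' q
  swap
  · exact ⟨s', hsS', h2⟩
  rcases key p with ⟨v, hp, hv, hv'⟩ | ⟨v, w, h, hr, hp, hv, hv'⟩
  · rcases key q with ⟨v', hq, hw, hw'⟩ | ⟨v', w', h', hr', hq, hw, hw'⟩
    · subst hp hq
      exact hV v v' (fun h => hpq (by rw [h])) (by omega)
    · omega
  · rcases key q with ⟨v', hq, hw, hw'⟩ | ⟨v', w', h', hr', hq, hw, hw'⟩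
    · omega
    · subst hp hq
      refine hE v w v' w' h h' hr hr' (by omega) ?_
      by_contra hcon
      push Not at hcon
      obtain ⟨rfl, rfl⟩ := hcon
      exact hpq rfl

end Pool.Agent.MMD
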