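import Pool.Agent.MMD.Graded

/-!
# The graph of the reduction
-/

set_option autoImplicit false

namespace Pool.Agent.MMD

/-- the vertices -/
inductive Vx (t u m : ℕ)
  | bot
  | top
  | hub
  | al (j : Fin t)
  | ga (i : Fin m)
  | ts (j : Fin t) (i : Fin m)
  | xx (c : Bool) (j : Fin t) (e : Fin u)
  | be (j : Fin t)
  | bb (e : Fin u)
  deriving DecidableEq

namespace Vx

variable {t u m : ℕ}

/-- the edges, directed upwards -/
def up (inc : Fin m → Fin u → Prop) : Vx t u m → Vx t u m → Prop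
  | bot, al _ => True
  | bot, ga _ => True
  | al _, hub => True
  | ga _, hub => True
  | al j, ts j' _ => j = j'
  | ga i, ts _ i' => i = i'
  | hub, xx _ _ _ => True
  | ts j i, xx c j' e => c = false ∧ j = j' ∧ inc i e
  | xx _ j _, be j' => j = j'
  | xx _ _ e, bb e' => e = e'
  | be _, top => True
  | bb _, top => True
  | _, _ => False

/-- the rank -/
def rk : Vx t u m → ℕ
  | bot => 0
  | al _ => 1
  | ga _ => 1
  | hub => 2
  | ts _ _ => 2
  | xx _ _ _ => 3
  | be _ => 4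
  | bb _ => 4
  | top => 5

theorem up_rk {inc : Fin m → Fin u → Prop} {v w : Vx t u m} (h : up inc v w) :
    rk w = rk v + 1 := by
  cases v <;> cases w <;> simp_all [up, rk]

/-- the graph -/
def gr (t : ℕ) (inc : Fin m → Fin u → Prop) : SimpleGraph (Vx t u m) where
  Adj v w := up inc v w ∨ up inc w v
  symm := ⟨fun _ _ h => h.symm⟩
  loopless := ⟨fun v h => by
    rcases h with h | h
    · have := up_rk h
      omega
    · have := up_rk h
      omega⟩

variable {inc : Fin m → Fin u → Prop}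

theorem adj_iff {v w : Vx t u m} :
    (gr t inc).Adj v w ↔ up inc v w ∨ up inc w v := Iff.rfl

theorem adj_rk (v w : Vx t u m) (h : (gr t inc).Adj v w) :
    rk w = rk v + 1 ∨ rk v = rk w + 1 := by
  rcases h with h | h
  · exact Or.inl (up_rk h)
  · exact Or.inr (up_rk h)

theorem rk_le (v : Vx t u m) : rk v ≤ 5 := by
  cases v <;> simp [rk]

theorem down (ht : 0 < t) (hu : 0 < u) (v : Vx t u m) (hv : v ≠ bot) :
    ∃ w, (gr t inc).Adj w v ∧ rk v = rk w + 1 := by
  let j0 : Fin t := ⟨0, ht⟩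
  let e0 : Fin u := ⟨0, hu⟩
  cases v with
  | bot => exact absurd rfl hv
  | top => exact ⟨be j0, Or.inl trivial, rfl⟩
  | hub => exact ⟨al j0, Or.inl trivial, rfl⟩
  | al j => exact ⟨bot, Or.inl trivial, rfl⟩
  | ga i => exact ⟨bot, Or.inl trivial, rfl⟩
  | ts j i => exact ⟨al j, Or.inl rfl, rfl⟩
  | xx c j e => exact ⟨hub, Or.inl trivial, rfl⟩
  | be j => exact ⟨xx true j e0, Or.inl rfl, rfl⟩
  | bb e => exact ⟨xx true j0 e, Or.inl rfl, rfl⟩

theorem above (ht : 0 < t) (hu : 0 < u) (hne : ∀ i, ∃ e, inc i e) (v : Vx t u m)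
    (hv : v ≠ top) : ∃ w, (gr t inc).Adj w v ∧ 5 - rk v = 5 - rk w + 1 := by
  let j0 : Fin t := ⟨0, ht⟩
  let e0 : Fin u := ⟨0, hu⟩
  cases v with
  | bot => exact ⟨al j0, Or.inr trivial, rfl⟩
  | top => exact absurd rfl hv
  | hub => exact ⟨xx true j0 e0, Or.inr trivial, rfl⟩
  | al j => exact ⟨hub, Or.inr trivial, rfl⟩
  | ga i => exact ⟨hub, Or.inr trivial, rfl⟩
  | ts j i =>
    obtain ⟨e, he⟩ := hne i
    exact ⟨xx false j e, Or.inr ⟨rfl, rfl, he⟩, rfl⟩
  | xx c j e => exact ⟨be j, Or.inr rfl, rfl⟩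
  | be j => exact ⟨top, Or.inr trivial, rfl⟩
  | bb e => exact ⟨top, Or.inr trivial, rfl⟩

theorem dist_bot' (ht : 0 < t) (hu : 0 < u) (v : Vx t u m) :
    (gr t inc).Reachable bot v ∧ (gr t inc).dist bot v = rk v :=
  dist_bot (ρ := rk) (fun v w h => by have := adj_rk v w h; omega) rfl (down ht hu) v

theorem dist_top (ht : 0 < t) (hu : 0 < u) (hne : ∀ i, ∃ e, inc i e) (v : Vx t u m) :
    (gr t inc).dist top v + rk v = 5 := by
  have h := (dist_bot (G := gr t inc) (ρ := fun v => 5 - rk v) (s := top)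
    (fun v w h => by
      have := adj_rk v w h
      have := rk_le v
      have := rk_le w
      omega) rfl (above ht hu hne) v).2
  have := rk_le v
  omega

theorem connected (ht : 0 < t) (hu : 0 < u) : (gr t inc).Connected := by
  rw [SimpleGraph.connected_iff]
  exact ⟨fun v w => (dist_bot' ht hu v).1.symm.trans (dist_bot' ht hu w).1, ⟨bot⟩⟩

/-- vertices of rank 2 are distinguished by the vertices of rank 1 -/
theorem sep_two (ht : 2 ≤ t) {v w : Vx t u m} (hv : rk v = 2) (hw : rk w = 2) (hvw : v ≠ w) :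
    ∃ z : Vx t u m, rk z = 1 ∧ (((gr t inc).Adj z v ∧ ¬ (gr t inc).Adj z w) ∨
      (¬ (gr t inc).Adj z v ∧ (gr t inc).Adj z w)) := by
  have key : ∀ j : Fin t, ∃ j' : Fin t, j' ≠ j := by
    intro j
    by_cases h : j.1 = 0
    · exact ⟨⟨1, by omega⟩, fun h' => by rw [← h'] at h; simp at h⟩
    · exact ⟨⟨0, by omega⟩, fun h' => h (by rw [← h'])⟩
  cases v <;> simp only [rk] at hv <;> try omega
  · cases w <;> simp only [rk] at hw <;> try omega
    · exact absurd rfl hvw
    · rename_i j i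
      obtain ⟨j', hj'⟩ := key j
      exact ⟨al j', rfl, Or.inl ⟨Or.inl trivial, by simp [adj_iff, up, hj']⟩⟩
  · rename_i j i
    cases w <;> simp only [rk] at hw <;> try omega
    · obtain ⟨j', hj'⟩ := key j
      exact ⟨al j', rfl, Or.inr ⟨by simp [adj_iff, up, hj'], Or.inl trivial⟩⟩
    · rename_i j' i'
      by_cases hj : j = j'
      · have hi : i ≠ i' := by
          rintro rfl
          exact hvw (by rw [hj])
        exact ⟨ga i, rfl, Or.inl ⟨Or.inl rfl, by simp [adj_iff, up, hi]⟩⟩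
      · exact ⟨al j, rfl, Or.inl ⟨Or.inl rfl, by simp [adj_iff, up, hj]⟩⟩

/-- vertices of rank 3 -/
theorem sep_three {C : Finset (Fin m)} (hC : ∀ e, ∃ i ∈ C, inc i e) {v w : Vx t u m}
    (hv : rk v = 3) (hw : rk w = 3) (hvw : v ≠ w) :
    ∃ z : Vx t u m, (rk z = 4 ∨ ∃ j, ∃ i ∈ C, z = ts j i) ∧
      (((gr t inc).Adj z v ∧ ¬ (gr t inc).Adj z w) ∨
      (¬ (gr t inc).Adj z v ∧ (gr t inc).Adj z w)) := by
  cases v <;> simp only [rk] at hv <;> try omega
  rename_i c j e
  cases w <;> simp only [rk] at hw <;> try omega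
  rename_i c' j' e'
  by_cases hj : j = j'
  · by_cases he : e = e'
    · subst hj he
      have hc : c ≠ c' := by
        rintro rfl
        exact hvw rfl
      obtain ⟨i, hi, hie⟩ := hC e
      refine ⟨ts j i, Or.inr ⟨j, i, hi, rfl⟩, ?_⟩
      cases c
      · cases c'
        · exact absurd rfl hc
        · exact Or.inl ⟨Or.inl ⟨rfl, rfl, hie⟩, by simp [adj_iff, up]⟩
      · cases c'
        · exact Or.inr ⟨by simp [adj_iff, up], Or.inl ⟨rfl, rfl, hie⟩⟩
        · exact absurd rfl hc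
    · exact ⟨bb e, Or.inl rfl, Or.inl ⟨Or.inr rfl, by
        simp only [adj_iff, up, false_or]
        exact fun h => he h.symm⟩⟩
  · exact ⟨be j, Or.inl rfl, Or.inl ⟨Or.inr rfl, by
      simp only [adj_iff, up, false_or]
      exact fun h => hj h.symm⟩⟩

end Vx

end Pool.Agent.MMD
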