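import Pool.Agent.MMD.Defs

/-!
# Instances of the set cover problem and of the mixed metric dimension problem, as words
-/

set_option autoImplicit false

namespace Pool.Agent.MMD

/-- The letters of the words which encode the instances. -/
inductive Letter
  | node
  | set
  | bit (b : Bool)
  | num
  deriving DecidableEq, Fintype

/-- An instance of the set cover problem: `m` non-empty subsets of a non-empty set of `u` elements,
every element being in some of the subsets, and a number `k`. -/
structure SetCover where
  /-- the number of elements -/
  u : ℕ
  /-- the number of subsets -/
  m : ℕ
  /-- `inc i e` means that the element `e` is in the subset `i` -/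
  inc : Fin m → Fin u → Prop
  /-- the number -/
  k : ℕ
  pos : 0 < u
  nonempty : ∀ i, ∃ e, inc i e
  covered : ∀ e, ∃ i, inc i e

/-- `C` is a cover. -/
def SetCover.IsCover (I : SetCover) (C : Finset (Fin I.m)) : Prop := ∀ e, ∃ i ∈ C, I.inc i e

/-- the least size of a cover -/
noncomputable def SetCover.tau (I : SetCover) : ℕ :=
  sInf {n | ∃ C : Finset (Fin I.m), I.IsCover C ∧ C.card = n}

/-- The word of an instance: `u` letters `node`, `m` letters `set`, the incidence matrix (bit by
bit, row by row), `k` letters `num`. -/
noncomputable def SetCover.enc (I : SetCover) : List Letter :=
  open Classical in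
  List.replicate I.u Letter.node ++ (List.replicate I.m Letter.set ++
    ((List.ofFn fun p : Fin (I.m * I.u) => Letter.bit (decide (I.inc p.divNat p.modNat))) ++
      List.replicate I.k Letter.num))

/-- A graph with vertices `0, …, n - 1` and a number `K`. -/
structure GraphNum where
  /-- the number of vertices -/
  n : ℕ
  /-- the graph -/
  G : SimpleGraph (Fin n)
  /-- the number -/
  K : ℕ

/-- The word of a graph with a number: `n` letters `node`, the adjacency matrix (bit by bit, row by
row), `K` letters `num`. -/
noncomputable def GraphNum.enc (J : GraphNum) : List Letter :=
  open Classical in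
  List.replicate J.n Letter.node ++
    ((List.ofFn fun p : Fin (J.n * J.n) => Letter.bit (decide (J.G.Adj p.divNat p.modNat))) ++
      List.replicate J.K Letter.num)

end Pool.Agent.MMD
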