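import Pool.Agent.MMD.Bounds

/-!
# The lower bound
-/

set_option autoImplicit false

namespace Pool.Agent.MMD

namespace Vx

variable {t u m : ℕ} {inc : Fin m → Fin u → Prop}

theorem nbr_true {j : Fin t} {e : Fin u} {y : Vx t u m}
    (h : (gr t inc).Adj y (xx true j e)) : (gr t inc).Adj y (xx false j e) := by
  cases y <;> simp_all [adj_iff, up]

theorem nbr_ts {j : Fin t} {i : Fin m} {y : Vx t u m} (h : (gr t inc).Adj y (ts j i)) :
    (gr t inc).Adj y hub := by
  cases y <;> simp_all [adj_iff, up]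

theorem nbr_false {j : Fin t} {e : Fin u} {y : Vx t u m}
    (h : (gr t inc).Adj y (xx false j e)) :
    (gr t inc).Adj y (xx true j e) ∨ ∃ i, inc i e ∧ y = ts j i := by
  cases y <;> simp_all [adj_iff, up]

/-- the pairs which encode the covering problem -/
theorem resolve_pair (ht : 0 < t) (hu : 0 < u) {j : Fin t} {e : Fin u} {w : Vx t u m}
    (h : (gr t inc).dist w (xx false j e) ≠ (gr t inc).dist w (xx true j e)) :
    (∃ c, w = xx c j e) ∨ ∃ i, inc i e ∧ w = ts j i := by
  have hG := connected (inc := inc) ht hu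
  by_contra hcon
  push Not at hcon
  obtain ⟨h1, h2⟩ := hcon
  apply h
  apply le_antisymm
  · exact dist_le_of_nbrs hG (fun y => nbr_true) (h1 true)
  · obtain ⟨p, hp⟩ := hG.exists_walk_length_eq_dist w (xx false j e)
    obtain ⟨y, q, hadj, hq⟩ := exists_last p (h1 false)
    have h3 : (gr t inc).dist w y ≤ q.length := SimpleGraph.dist_le _
    rcases nbr_false hadj with h4 | ⟨i, hi, rfl⟩
    · have h5 : (gr t inc).dist w (xx true j e) ≤ (q.concat h4).length := SimpleGraph.dist_le _
      rw [SimpleGraph.Walk.length_concat] at h5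
      omega
    · have h5 : (gr t inc).dist w hub ≤ (gr t inc).dist w (ts j i) :=
        dist_le_of_nbrs hG (fun y => nbr_ts) (h2 i hi)
      have h6 : (gr t inc).Adj hub (xx true j e) := Or.inl trivial
      have h7 := hG.dist_triangle (u := w) (v := hub) (w := xx true j e)
      rw [SimpleGraph.dist_eq_one_iff_adj.2 h6] at h7
      omega

/-- the copy to which a vertex belongs -/
def copy : Vx t u m → Option (Fin t)
  | ts j _ => some j
  | xx _ j _ => some j
  | _ => none

/-- the set which belongs to a vertex -/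
def label (c : Fin u → Fin m) (i₀ : Fin m) : Vx t u m → Fin m
  | ts _ i => i
  | xx _ _ e => c e
  | _ => i₀

/-- the cover given by the vertices of `S` in the copy `j` -/
def cov (c : Fin u → Fin m) (i₀ : Fin m) (S : Finset (Vx t u m)) (j : Fin t) : Finset (Fin m) :=
  (S.filter fun v => copy v = some j).image (label c i₀)

theorem cov_cover (ht : 0 < t) (hu : 0 < u) {c : Fin u → Fin m} (hc : ∀ e, inc (c e) e)
    (i₀ : Fin m) {S : Finset (Vx t u m)} (hS : MixedResolving (gr t inc) S) (j : Fin t) :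
    IsCover inc (cov c i₀ S j) := by
  intro e
  obtain ⟨w, hw, h⟩ := hS (Sum.inl (xx false j e)) (Sum.inl (xx true j e)) (by simp)
  rcases resolve_pair ht hu h with ⟨b, rfl⟩ | ⟨i, hi, rfl⟩
  · exact ⟨c e, Finset.mem_image.2 ⟨_, Finset.mem_filter.2 ⟨hw, rfl⟩, rfl⟩, hc e⟩
  · exact ⟨i, Finset.mem_image.2 ⟨_, Finset.mem_filter.2 ⟨hw, rfl⟩, rfl⟩, hi⟩

theorem sum_cov_le (c : Fin u → Fin m) (i₀ : Fin m) (S : Finset (Vx t u m)) :
    ∑ j : Fin t, (cov c i₀ S j).card ≤ S.card := by
  have h1 : S.card = ∑ o : Option (Fin t), (S.filter fun v => copy v = o).card :=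
    Finset.card_eq_sum_card_fiberwise (fun _ _ => Finset.mem_coe.2 (Finset.mem_univ _))
  rw [h1, Fintype.sum_option]
  refine le_trans ?_ (Nat.le_add_left _ _)
  exact Finset.sum_le_sum fun j _ => Finset.card_image_le

/-- a mixed resolving set contains a cover in every copy -/
theorem exists_cover (ht : 0 < t) (hu : 0 < u) (hcov : ∀ e, ∃ i, inc i e)
    {S : Finset (Vx t u m)} (hS : MixedResolving (gr t inc) S) :
    ∃ C, IsCover inc C ∧ t * C.card ≤ S.card := by
  choose c hc using hcov
  let i₀ : Fin m := c ⟨0, hu⟩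
  have h1 := sum_cov_le c i₀ S
  by_contra hcon
  push Not at hcon
  have h2 : ∀ j : Fin t, S.card + 1 ≤ t * (cov c i₀ S j).card := fun j =>
    hcon _ (cov_cover ht hu hc i₀ hS j)
  have h3 := Finset.sum_le_sum fun j (_ : j ∈ (Finset.univ : Finset (Fin t))) => h2 j
  rw [← Finset.mul_sum, Finset.sum_const, Finset.card_univ, Fintype.card_fin, smul_eq_mul] at h3
  have h4 := Nat.le_of_mul_le_mul_left h3 ht
  omega

end Vx

end Pool.Agent.MMD
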