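import Pool.Agent.MMD.Lower

/-!
# Numbering the vertices
-/

set_option autoImplicit false

namespace Pool.Agent.MMD

namespace Vx

/-- first number of the vertices `ts` -/
def oT (t m : ℕ) : ℕ := 3 + t + m
/-- first number of the vertices `xx` -/
def oX (t m : ℕ) : ℕ := oT t m + t * m
/-- first number of the vertices `be` -/
def oB (t u m : ℕ) : ℕ := oX t m + 2 * (t * u)
/-- the number of vertices -/
def nV (t u m : ℕ) : ℕ := oB t u m + t + u

variable {t u m : ℕ}

/-- the number of a vertex -/
def num : Vx t u m → ℕ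
  | bot => 0
  | top => 1
  | hub => 2
  | al j => 3 + j
  | ga i => 3 + t + i
  | ts j i => oT t m + (j * m + i)
  | xx c j e => oX t m + ((c.toNat * t + j) * u + e)
  | be j => oB t u m + j
  | bb e => oB t u m + t + e

theorem ts_lt (j : Fin t) (i : Fin m) : (j : ℕ) * m + i < t * m := by
  have h := Nat.mul_le_mul_right m (Nat.succ_le_of_lt j.2)
  have := i.2
  rw [Nat.succ_mul] at h
  omega

theorem xx_lt (c : Bool) (j : Fin t) (e : Fin u) :
    (c.toNat * t + j) * u + e < 2 * (t * u) ∧ ((c.toNat * t + j) * u + e < t * u ↔ c = false) := by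
  have h := Nat.mul_le_mul_right u (Nat.succ_le_of_lt j.2)
  have := e.2
  rw [Nat.succ_mul] at h
  cases c
  · simp only [Bool.toNat_false, zero_mul, zero_add, iff_true]
    omega
  · simp only [Bool.toNat_true, one_mul, Bool.true_eq_false, iff_false]
    rw [add_mul]
    omega

theorem ts_div (j : Fin t) (i : Fin m) : ((j : ℕ) * m + i) / m = j ∧
    ((j : ℕ) * m + i) % m = i := by
  have := i.2
  constructor
  · rw [Nat.add_comm, Nat.add_mul_div_right _ _ (by omega), Nat.div_eq_of_lt this]
    omega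
  · rw [Nat.add_comm, Nat.add_mul_mod_self_right, Nat.mod_eq_of_lt this]

theorem xx_div (c : Bool) (j : Fin t) (e : Fin u) :
    ((c.toNat * t + j) * u + e) / u = c.toNat * t + j ∧ ((c.toNat * t + j) * u + e) % u = e ∧
      (c.toNat * t + j) % t = j := by
  have := e.2
  refine ⟨?_, ?_, ?_⟩
  · rw [Nat.add_comm, Nat.add_mul_div_right _ _ (by omega), Nat.div_eq_of_lt this]
    omega
  · rw [Nat.add_comm, Nat.add_mul_mod_self_right, Nat.mod_eq_of_lt this]
  · rw [Nat.add_comm, Nat.add_mul_mod_self_right, Nat.mod_eq_of_lt j.2]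

/-- the numbers of the vertices of a given kind -/
def Kind (v : Vx t u m) : Prop :=
  match v with
  | bot => num v = 0
  | top => num v = 1
  | hub => num v = 2
  | al _ => 3 ≤ num v ∧ num v < 3 + t
  | ga _ => 3 + t ≤ num v ∧ num v < oT t m
  | ts _ _ => oT t m ≤ num v ∧ num v < oX t m
  | xx _ _ _ => oX t m ≤ num v ∧ num v < oB t u m
  | be _ => oB t u m ≤ num v ∧ num v < oB t u m + t
  | bb _ => oB t u m + t ≤ num v ∧ num v < nV t u m

theorem kind (v : Vx t u m) : Kind v := by
  cases v with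
  | bot => rfl
  | top => rfl
  | hub => rfl
  | al j => have := j.2; simp only [Kind, num]; omega
  | ga i => have := i.2; simp only [Kind, num, oT]; omega
  | ts j i => have := ts_lt j i; simp only [Kind, num, oX]; omega
  | xx c j e => have := xx_lt c j e; simp only [Kind, num, oB]; omega
  | be j => have := j.2; simp only [Kind, num]; omega
  | bb e => have := e.2; simp only [Kind, num, nV]; omega

theorem offs (t u m : ℕ) : oT t m = 3 + t + m ∧ oT t m ≤ oX t m ∧ oX t m ≤ oB t u m ∧
    nV t u m = oB t u m + t + u :=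
  ⟨rfl, by simp [oX], by simp [oB], rfl⟩

theorem num_lt (v : Vx t u m) : num v < nV t u m := by
  have h := offs t u m
  have hk := kind v
  cases v <;> simp only [Kind] at hk <;> omega

theorem inv_bot {v : Vx t u m} (h : num v = 0) : v = bot := by
  have ho := offs t u m
  have hk := kind v
  cases v <;> simp only [Kind] at hk <;> first | rfl | omega

theorem inv_top {v : Vx t u m} (h : num v = 1) : v = top := by
  have ho := offs t u m
  have hk := kind v
  cases v <;> simp only [Kind] at hk <;> first | rfl | omega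

theorem inv_hub {v : Vx t u m} (h : num v = 2) : v = hub := by
  have ho := offs t u m
  have hk := kind v
  cases v <;> simp only [Kind] at hk <;> first | rfl | omega

theorem inv_al {v : Vx t u m} (h : 3 ≤ num v) (h' : num v < 3 + t) : ∃ j, v = al j := by
  have ho := offs t u m
  have hk := kind v
  cases v <;> simp only [Kind] at hk <;> first | exact ⟨_, rfl⟩ | omega

theorem inv_ga {v : Vx t u m} (h : 3 + t ≤ num v) (h' : num v < oT t m) : ∃ i, v = ga i := by
  have ho := offs t u m
  have hk := kind v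
  cases v <;> simp only [Kind] at hk <;> first | exact ⟨_, rfl⟩ | omega

theorem inv_ts {v : Vx t u m} (h : oT t m ≤ num v) (h' : num v < oX t m) :
    ∃ j i, v = ts j i := by
  have ho := offs t u m
  have hk := kind v
  cases v <;> simp only [Kind] at hk <;> first | exact ⟨_, _, rfl⟩ | omega

theorem inv_xx {v : Vx t u m} (h : oX t m ≤ num v) (h' : num v < oB t u m) :
    ∃ c j e, v = xx c j e := by
  have ho := offs t u m
  have hk := kind v
  cases v <;> simp only [Kind] at hk <;> first | exact ⟨_, _, _, rfl⟩ | omega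

theorem inv_be {v : Vx t u m} (h : oB t u m ≤ num v) (h' : num v < oB t u m + t) :
    ∃ j, v = be j := by
  have ho := offs t u m
  have hk := kind v
  cases v <;> simp only [Kind] at hk <;> first | exact ⟨_, rfl⟩ | omega

theorem inv_bb {v : Vx t u m} (h : oB t u m + t ≤ num v) : ∃ e, v = bb e := by
  have ho := offs t u m
  have hk := kind v
  cases v <;> simp only [Kind] at hk <;> first | exact ⟨_, rfl⟩ | omega

theorem num_inj : Function.Injective (num : Vx t u m → ℕ) := by
  intro v w h
  have ho := offs t u m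
  have hk := kind w
  cases w with
  | bot => exact inv_bot (by rw [h]; rfl)
  | top => exact inv_top (by rw [h]; rfl)
  | hub => exact inv_hub (by rw [h]; rfl)
  | al j =>
    simp only [Kind] at hk
    obtain ⟨j', rfl⟩ := inv_al (v := v) (by omega) (by omega)
    simp only [num] at h
    congr 1
    ext
    omega
  | ga i =>
    simp only [Kind] at hk
    obtain ⟨j', rfl⟩ := inv_ga (v := v) (by omega) (by omega)
    simp only [num] at h
    congr 1
    ext
    omega
  | ts j i =>
    simp only [Kind] at hk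
    obtain ⟨j', i', rfl⟩ := inv_ts (v := v) (by omega) (by omega)
    simp only [num] at h
    have h' := Nat.add_left_cancel h
    have h1 := ts_div j i
    have h2 := ts_div j' i'
    rw [h'] at h2
    have e1 : j' = j := Fin.ext (h2.1.symm.trans h1.1)
    have e2 : i' = i := Fin.ext (h2.2.symm.trans h1.2)
    rw [e1, e2]
  | xx c j e =>
    simp only [Kind] at hk
    obtain ⟨c', j', e', rfl⟩ := inv_xx (v := v) (by omega) (by omega)
    simp only [num] at h
    have h' := Nat.add_left_cancel h
    have h1 := xx_div c j e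
    have h2 := xx_div c' j' e'
    have h3 := (xx_lt c j e).2
    have h4 := (xx_lt c' j' e').2
    rw [h'] at h2 h4
    have h5 : c' = c := by
      have : c' = false ↔ c = false := h4.symm.trans h3
      cases c <;> cases c' <;> simp_all
    have e2 : e' = e := Fin.ext (h2.2.1.symm.trans h1.2.1)
    have e3 := h2.1.symm.trans h1.1
    have e4 := h2.2.2
    rw [e3, h1.2.2] at e4
    have e5 : j = j' := Fin.ext e4
    rw [h5, e2, e5]
  | be j =>
    simp only [Kind] at hk
    obtain ⟨j', rfl⟩ := inv_be (v := v) (by omega) (by omega)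
    simp only [num] at h
    congr 1
    ext
    omega
  | bb e =>
    simp only [Kind] at hk
    obtain ⟨j', rfl⟩ := inv_bb (v := v) (by omega)
    simp only [num] at h
    congr 1
    ext
    omega

theorem num_surj {p : ℕ} (hp : p < nV t u m) : ∃ v : Vx t u m, num v = p := by
  have ho := offs t u m
  by_cases h0 : p = 0
  · exact ⟨bot, h0.symm⟩
  by_cases h1 : p = 1
  · exact ⟨top, h1.symm⟩
  by_cases h2 : p = 2
  · exact ⟨hub, h2.symm⟩
  by_cases h3 : p < 3 + t
  · exact ⟨al ⟨p - 3, by omega⟩, by simp only [num]; omega⟩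
  by_cases h4 : p < oT t m
  · exact ⟨ga ⟨p - (3 + t), by omega⟩, by simp only [num]; omega⟩
  by_cases h5 : p < oX t m
  · have hr : p - oT t m < t * m := by unfold oX at h5; omega
    have hm : 0 < m := Nat.pos_of_ne_zero fun h => by rw [h] at hr; simp at hr
    have hj : (p - oT t m) / m < t := Nat.div_lt_of_lt_mul (by rwa [mul_comm])
    refine ⟨ts ⟨(p - oT t m) / m, hj⟩ ⟨(p - oT t m) % m, Nat.mod_lt _ hm⟩, ?_⟩
    simp only [num]
    have := Nat.div_add_mod' (p - oT t m) m
    omega
  by_cases h6 : p < oB t u m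
  · have hr : p - oX t m < 2 * (t * u) := by unfold oB at h6; omega
    have hu : 0 < u := Nat.pos_of_ne_zero fun h => by rw [h] at hr; simp at hr
    have hj : (p - oX t m) / u < 2 * t := Nat.div_lt_of_lt_mul (by
      calc p - oX t m < 2 * (t * u) := hr
        _ = u * (2 * t) := by ring)
    have hdm := Nat.div_add_mod' (p - oX t m) u
    by_cases hc : (p - oX t m) / u < t
    · refine ⟨xx false ⟨(p - oX t m) / u, hc⟩ ⟨(p - oX t m) % u, Nat.mod_lt _ hu⟩, ?_⟩
      simp only [num, Bool.toNat_false, zero_mul, zero_add]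
      omega
    · refine ⟨xx true ⟨(p - oX t m) / u - t, by omega⟩ ⟨(p - oX t m) % u, Nat.mod_lt _ hu⟩, ?_⟩
      simp only [num, Bool.toNat_true, one_mul]
      rw [show t + ((p - oX t m) / u - t) = (p - oX t m) / u by omega]
      omega
  by_cases h7 : p < oB t u m + t
  · exact ⟨be ⟨p - oB t u m, by omega⟩, by simp only [num]; omega⟩
  · exact ⟨bb ⟨p - (oB t u m + t), by omega⟩, by simp only [num]; omega⟩

/-- the numbering as a bijection -/
noncomputable def eqv (t u m : ℕ) : Vx t u m ≃ Fin (nV t u m) :=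
  Equiv.ofBijective (fun v => ⟨num v, num_lt v⟩) ⟨fun v w h => num_inj (by simpa using h),
    fun p => by
      obtain ⟨v, hv⟩ := num_surj p.2
      exact ⟨v, Fin.ext hv⟩⟩

theorem eqv_val (v : Vx t u m) : (eqv t u m v : ℕ) = num v := rfl

/-- the edges in terms of the numbers -/
def upN (t u m : ℕ) (incN : ℕ → ℕ → Prop) (p q : ℕ) : Prop :=
  (p = 0 ∧ 3 ≤ q ∧ q < oT t m) ∨ (3 ≤ p ∧ p < oT t m ∧ q = 2) ∨
  (3 ≤ p ∧ p < 3 + t ∧ oT t m ≤ q ∧ q < oX t m ∧ (q - oT t m) / m = p - 3) ∨
  (3 + t ≤ p ∧ p < oT t m ∧ oT t m ≤ q ∧ q < oX t m ∧ (q - oT t m) % m = p - (3 + t)) ∨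
  (p = 2 ∧ oX t m ≤ q ∧ q < oB t u m) ∨
  (oT t m ≤ p ∧ p < oX t m ∧ oX t m ≤ q ∧ q < oX t m + t * u ∧
    (q - oX t m) / u = (p - oT t m) / m ∧ incN ((p - oT t m) % m) ((q - oX t m) % u)) ∨
  (oX t m ≤ p ∧ p < oB t u m ∧ oB t u m ≤ q ∧ q < oB t u m + t ∧
    (p - oX t m) / u % t = q - oB t u m) ∨
  (oX t m ≤ p ∧ p < oB t u m ∧ oB t u m + t ≤ q ∧ q < nV t u m ∧
    (p - oX t m) % u = q - (oB t u m + t)) ∨
  (oB t u m ≤ p ∧ p < nV t u m ∧ q = 1)

theorem num_ts (j : Fin t) (i : Fin m) :
    (num (ts (u := u) j i) - oT t m) / m = j ∧ (num (ts (u := u) j i) - oT t m) % m = i := by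
  simp only [num, Nat.add_sub_cancel_left]
  exact ts_div j i

theorem num_xx (c : Bool) (j : Fin t) (e : Fin u) :
    (num (xx (m := m) c j e) - oX t m) / u % t = j ∧
      (num (xx (m := m) c j e) - oX t m) % u = e ∧
      (c = false → (num (xx (m := m) c j e) - oX t m) / u = j) ∧
      (num (xx (m := m) c j e) < oX t m + t * u ↔ c = false) := by
  simp only [num, Nat.add_sub_cancel_left]
  have h := xx_div c j e
  refine ⟨by rw [h.1, h.2.2], h.2.1, ?_, ?_⟩
  · rintro rfl
    rw [h.1]
    simp
  · rw [← (xx_lt c j e).2]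
    omega

theorem up_iff {inc : Fin m → Fin u → Prop} {incN : ℕ → ℕ → Prop}
    (hinc : ∀ (i : Fin m) (e : Fin u), incN i e ↔ inc i e) (v w : Vx t u m) :
    up inc v w ↔ upN t u m incN (num v) (num w) := by
  have ho := offs t u m
  constructor
  · intro h
    have hk := kind v
    have hk' := kind w
    unfold upN
    cases v <;> cases w <;> simp only [up] at h <;> simp only [Kind] at hk hk'
    · exact Or.inl ⟨hk, by omega, by omega⟩
    · exact Or.inl ⟨hk, by omega, by omega⟩
    · exact Or.inr (Or.inr (Or.inr (Or.inr (Or.inl ⟨hk, hk'.1, hk'.2⟩))))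
    · exact Or.inr (Or.inl ⟨by omega, by omega, hk'⟩)
    · rename_i j j' i
      subst h
      refine Or.inr (Or.inr (Or.inl ⟨hk.1, hk.2, hk'.1, hk'.2, ?_⟩))
      rw [(num_ts _ _).1]
      simp [num]
    · exact Or.inr (Or.inl ⟨by omega, by omega, hk'⟩)
    · rename_i i j i'
      subst h
      refine Or.inr (Or.inr (Or.inr (Or.inl ⟨hk.1, hk.2, hk'.1, hk'.2, ?_⟩)))
      rw [(num_ts _ _).2]
      simp [num]
    · rename_i j i c j' e
      obtain ⟨rfl, rfl, h⟩ := h
      have h1 := num_xx (m := m) false j e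
      have h2 := num_ts (u := u) j i
      refine Or.inr (Or.inr (Or.inr (Or.inr (Or.inr (Or.inl
        ⟨hk.1, hk.2, hk'.1, h1.2.2.2.2 rfl, ?_, ?_⟩)))))
      · rw [h1.2.2.1 rfl, h2.1]
      · rw [h1.2.1, h2.2, hinc]
        exact h
    · rename_i c j e j'
      subst h
      have h1 := num_xx (m := m) c j e
      refine Or.inr (Or.inr (Or.inr (Or.inr (Or.inr (Or.inr (Or.inl
        ⟨hk.1, hk.2, hk'.1, hk'.2, ?_⟩))))))
      rw [h1.1]
      simp [num]
    · rename_i c j e j'
      subst h
      have h1 := num_xx (m := m) c j e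
      refine Or.inr (Or.inr (Or.inr (Or.inr (Or.inr (Or.inr (Or.inr (Or.inl
        ⟨hk.1, hk.2, hk'.1, hk'.2, ?_⟩)))))))
      rw [h1.2.1]
      simp [num]
    · exact Or.inr (Or.inr (Or.inr (Or.inr (Or.inr (Or.inr (Or.inr (Or.inr
        ⟨by omega, by omega, hk'⟩)))))))
    · exact Or.inr (Or.inr (Or.inr (Or.inr (Or.inr (Or.inr (Or.inr (Or.inr
        ⟨by omega, by omega, hk'⟩)))))))
  · intro h
    unfold upN at h
    rcases h with h | h | h | h | h | h | h | h | h
    · obtain rfl := inv_bot h.1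
      by_cases h' : num w < 3 + t
      · obtain ⟨j, rfl⟩ := inv_al h.2.1 h'
        trivial
      · obtain ⟨j, rfl⟩ := inv_ga (not_lt.1 h') h.2.2
        trivial
    · obtain rfl := inv_hub h.2.2
      by_cases h' : num v < 3 + t
      · obtain ⟨j, rfl⟩ := inv_al h.1 h'
        trivial
      · obtain ⟨j, rfl⟩ := inv_ga (not_lt.1 h') h.2.1
        trivial
    · obtain ⟨j, rfl⟩ := inv_al h.1 h.2.1
      obtain ⟨j', i', rfl⟩ := inv_ts h.2.2.1 h.2.2.2.1
      have h1 := h.2.2.2.2
      rw [(num_ts _ _).1] at h1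
      simp only [up, num] at h1 ⊢
      ext
      omega
    · obtain ⟨j, rfl⟩ := inv_ga h.1 h.2.1
      obtain ⟨j', i', rfl⟩ := inv_ts h.2.2.1 h.2.2.2.1
      have h1 := h.2.2.2.2
      rw [(num_ts _ _).2] at h1
      simp only [up, num] at h1 ⊢
      ext
      omega
    · obtain rfl := inv_hub h.1
      obtain ⟨c, j, e, rfl⟩ := inv_xx h.2.1 h.2.2
      trivial
    · obtain ⟨h1, h2, h3, h4, h5, h6⟩ := h
      obtain ⟨j, i, rfl⟩ := inv_ts h1 h2
      obtain ⟨c, j', e, rfl⟩ := inv_xx h3 (by
        have : oB t u m = oX t m + 2 * (t * u) := rfl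
        omega)
      have g1 := num_xx (m := m) c j' e
      have g2 := num_ts (u := u) j i
      have hc : c = false := g1.2.2.2.1 h4
      rw [g1.2.2.1 hc, g2.1] at h5
      rw [g1.2.1, g2.2, hinc] at h6
      exact ⟨hc, Fin.ext h5.symm, h6⟩
    · obtain ⟨h1, h2, h3, h4, h5⟩ := h
      obtain ⟨c, j, e, rfl⟩ := inv_xx h1 h2
      obtain ⟨j', rfl⟩ := inv_be h3 h4
      rw [(num_xx _ _ _).1] at h5
      simp only [up, num] at h5 ⊢
      ext
      omega
    · obtain ⟨h1, h2, h3, h4, h5⟩ := h
      obtain ⟨c, j, e, rfl⟩ := inv_xx h1 h2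
      obtain ⟨e', rfl⟩ := inv_bb h3
      rw [(num_xx _ _ _).2.1] at h5
      simp only [up, num] at h5 ⊢
      ext
      omega
    · obtain rfl := inv_top h.2.2
      by_cases h' : num v < oB t u m + t
      · obtain ⟨j, rfl⟩ := inv_be h.1 h'
        trivial
      · obtain ⟨j, rfl⟩ := inv_bb (not_lt.1 h')
        trivial

end Vx

end Pool.Agent.MMD
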