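import Pool.Agent.MMD.Num
import Pool.Agent.MMD.Inst
import Pool.Agent.PT.UF

/-!
# The reduction and its computability in polynomial time
-/

set_option autoImplicit false

namespace Pool.Agent.MMD

open Pool.Agent.PT
open Turing Computability

/-- The reduction. -/
noncomputable def red (I : SetCover) : GraphNum where
  n := Vx.nV (I.u + I.m + 2) I.u I.m
  G := (Vx.gr (I.u + I.m + 2) I.inc).comap (Vx.eqv (I.u + I.m + 2) I.u I.m).symm
  K := (I.u + I.m + 2) * (I.k + 3)

namespace RedPoly

open Vx

theorem sum_count (x : List Letter) (a : Letter) :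
    ∑ i ∈ Finset.range x.length, (if x[i]? = some a then 1 else 0) = x.count a := by
  induction x with
  | nil => simp
  | cons b x ih =>
    rw [List.length_cons, Finset.sum_range_succ', List.count_cons]
    simp only [List.getElem?_cons_succ, List.getElem?_cons_zero, Option.some.injEq]
    rw [ih]
    simp

theorem UF_count (a : Letter) : UF (fun (x : List Letter) (_ : ℕ → ℕ) => x.count a) := by
  classical
  refine (UF.sum (f := fun (x : List Letter) _ i => if x[i]? = some a then 1 else 0) UF.len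
    (UF.congr (UP.sym a (UF.var 0)) fun x e => ?_)).congr fun x e => sum_count x a
  by_cases h : x[e 0]? = some a <;> simp [h]

/-- the number of elements -/
def cu (x : List Letter) : ℕ := x.count Letter.node
/-- the number of sets -/
def cm (x : List Letter) : ℕ := x.count Letter.set
/-- the number -/
def ck (x : List Letter) : ℕ := x.count Letter.num
/-- the number of copies -/
def ct (x : List Letter) : ℕ := cu x + cm x + 2

theorem UF_cu : UF (fun (x : List Letter) (_ : ℕ → ℕ) => cu x) := UF_count _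
theorem UF_cm : UF (fun (x : List Letter) (_ : ℕ → ℕ) => cm x) := UF_count _
theorem UF_ck : UF (fun (x : List Letter) (_ : ℕ → ℕ) => ck x) := UF_count _
theorem UF_ct : UF (fun (x : List Letter) (_ : ℕ → ℕ) => ct x) :=
  (UF_cu.add UF_cm).add (UF.const 2)

/-- incidence, read off the word -/
def ri (x : List Letter) (i e : ℕ) : Prop :=
  x[cu x + cm x + (i * cu x + e)]? = some (Letter.bit true)

theorem UP_ri {f g : List Letter → (ℕ → ℕ) → ℕ} (hf : UF f) (hg : UF g) :
    UP (fun x e => ri x (f x e) (g x e)) :=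
  UP.sym _ ((UF_cu.add UF_cm).add ((hf.mul UF_cu).add hg))

theorem UF_oT : UF (fun (x : List Letter) (_ : ℕ → ℕ) => oT (ct x) (cm x)) :=
  ((UF.const 3).add UF_ct).add UF_cm

theorem UF_oX : UF (fun (x : List Letter) (_ : ℕ → ℕ) => oX (ct x) (cm x)) :=
  UF_oT.add (UF_ct.mul UF_cm)

theorem UF_oB : UF (fun (x : List Letter) (_ : ℕ → ℕ) => oB (ct x) (cu x) (cm x)) :=
  UF_oX.add ((UF.const 2).mul (UF_ct.mul UF_cu))

/-- the number of vertices -/
def cn (x : List Letter) : ℕ := nV (ct x) (cu x) (cm x)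

theorem UF_cn : UF (fun (x : List Letter) (_ : ℕ → ℕ) => cn x) :=
  (UF_oB.add UF_ct).add UF_cu

/-- the edges, read off the word -/
def ru (x : List Letter) (p q : ℕ) : Prop := upN (ct x) (cu x) (cm x) (ri x) p q

theorem UP_ru {f g : List Letter → (ℕ → ℕ) → ℕ} (hf : UF f) (hg : UF g) :
    UP (fun x e => ru x (f x e) (g x e)) := by
  have c0 : UF (fun (_ : List Letter) (_ : ℕ → ℕ) => 0) := UF.const 0
  have c1 : UF (fun (_ : List Letter) (_ : ℕ → ℕ) => 1) := UF.const 1
  have c2 : UF (fun (_ : List Letter) (_ : ℕ → ℕ) => 2) := UF.const 2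
  have c3 : UF (fun (_ : List Letter) (_ : ℕ → ℕ) => 3) := UF.const 3
  have h3t := c3.add UF_ct
  have hB1 := UF_oB.add UF_ct
  unfold ru upN
  refine ((UP.eq hf c0).and ((UP.le c3 hg).and (UP.lt hg UF_oT))).or
    (((UP.le c3 hf).and ((UP.lt hf UF_oT).and (UP.eq hg c2))).or
    (((UP.le c3 hf).and ((UP.lt hf h3t).and ((UP.le UF_oT hg).and ((UP.lt hg UF_oX).and
      (UP.eq ((hg.sub UF_oT).div UF_cm) (hf.sub c3)))))).or
    (((UP.le h3t hf).and ((UP.lt hf UF_oT).and ((UP.le UF_oT hg).and ((UP.lt hg UF_oX).and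
      (UP.eq ((hg.sub UF_oT).mod UF_cm) (hf.sub h3t)))))).or
    (((UP.eq hf c2).and ((UP.le UF_oX hg).and (UP.lt hg UF_oB))).or
    (((UP.le UF_oT hf).and ((UP.lt hf UF_oX).and ((UP.le UF_oX hg).and
      ((UP.lt hg (UF_oX.add (UF_ct.mul UF_cu))).and
      ((UP.eq ((hg.sub UF_oX).div UF_cu) ((hf.sub UF_oT).div UF_cm)).and
        (UP_ri ((hf.sub UF_oT).mod UF_cm) ((hg.sub UF_oX).mod UF_cu))))))).or
    (((UP.le UF_oX hf).and ((UP.lt hf UF_oB).and ((UP.le UF_oB hg).and ((UP.lt hg hB1).and
      (UP.eq (((hf.sub UF_oX).div UF_cu).mod UF_ct) (hg.sub UF_oB)))))).or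
    (((UP.le UF_oX hf).and ((UP.lt hf UF_oB).and ((UP.le hB1 hg).and ((UP.lt hg UF_cn).and
      (UP.eq ((hf.sub UF_oX).mod UF_cu) (hg.sub hB1)))))).or
    ((UP.le UF_oB hf).and ((UP.lt hf UF_cn).and (UP.eq hg c1))))))))))

open Classical in
/-- The code of the output letter. -/
noncomputable def ol (x : List Letter) (i : ℕ) : ℕ :=
  if i < cn x then 0 else if i < cn x + cn x * cn x then
    (if ru x ((i - cn x) / cn x) ((i - cn x) % cn x) ∨
      ru x ((i - cn x) % cn x) ((i - cn x) / cn x) then 2 else 1) else 3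

/-- The output letters. -/
def dec (k : ℕ) : Letter :=
  if k = 0 then .node else if k = 1 then .bit false else if k = 2 then .bit true else .num

theorem dec_min (k : ℕ) : dec (min k 3) = dec k := by
  unfold dec
  rcases k with _ | _ | _ | k
  · rfl
  · rfl
  · rfl
  · rw [if_neg (by omega), if_neg (by omega), if_neg (by omega), if_neg (by omega),
      if_neg (by omega), if_neg (by omega)]

theorem UF_ol : UF (fun x e => ol x (e 0)) := by
  have hp : UF (fun x (e : ℕ → ℕ) => e 0 - cn x) := (UF.var 0).sub UF_cn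
  exact UF.ite (UP.lt (UF.var 0) UF_cn) (UF.const 0) (UF.ite
    (UP.lt (UF.var 0) (UF_cn.add (UF_cn.mul UF_cn)))
    (UF.ite ((UP_ru (hp.div UF_cn) (hp.mod UF_cn)).or (UP_ru (hp.mod UF_cn) (hp.div UF_cn)))
      (UF.const 2) (UF.const 1)) (UF.const 3))

/-! ### Reading the word of an instance -/

variable (I : SetCover)

theorem cu_enc : cu I.enc = I.u := by
  classical
  unfold cu SetCover.enc
  simp only [List.count_append, List.count_replicate]
  rw [List.count_eq_zero.2]
  · simp
  · simp

theorem cm_enc : cm I.enc = I.m := by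
  classical
  unfold cm SetCover.enc
  simp only [List.count_append, List.count_replicate]
  rw [List.count_eq_zero.2]
  · simp
  · simp

theorem ck_enc : ck I.enc = I.k := by
  classical
  unfold ck SetCover.enc
  simp only [List.count_append, List.count_replicate]
  rw [List.count_eq_zero.2]
  · simp
  · simp

theorem ct_enc : ct I.enc = I.u + I.m + 2 := by
  rw [ct, cu_enc, cm_enc]

theorem cn_enc : cn I.enc = (red I).n := by
  rw [cn, cu_enc, cm_enc, ct_enc]
  rfl

theorem ri_enc (i : Fin I.m) (e : Fin I.u) : ri I.enc i e ↔ I.inc i e := by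
  classical
  have h1 : (i : ℕ) * I.u + e < I.m * I.u := by
    calc (i : ℕ) * I.u + e < i * I.u + I.u := by have := e.2; omega
      _ = (i + 1) * I.u := by ring
      _ ≤ I.m * I.u := Nat.mul_le_mul_right _ i.2
  unfold ri
  rw [cu_enc, cm_enc]
  unfold SetCover.enc
  rw [List.getElem?_append_right (by simp; omega), List.length_replicate,
    show I.u + I.m + ((i : ℕ) * I.u + e) - I.u = I.m + ((i : ℕ) * I.u + e) by omega,
    List.getElem?_append_right (by simp), List.length_replicate, Nat.add_sub_cancel_left,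
    List.getElem?_append_left (by simpa using h1), List.getElem?_ofFn, dif_pos h1]
  have e1 : (Fin.divNat ⟨(i : ℕ) * I.u + e, h1⟩ : Fin I.m) = i := by
    ext
    simp only [Fin.coe_divNat]
    rw [Nat.add_comm, Nat.add_mul_div_right _ _ (by have := e.2; omega), Nat.div_eq_of_lt e.2]
    omega
  have e2 : (Fin.modNat ⟨(i : ℕ) * I.u + e, h1⟩ : Fin I.u) = e := by
    ext
    simp only [Fin.coe_modNat]
    rw [Nat.add_comm, Nat.add_mul_mod_self_right, Nat.mod_eq_of_lt e.2]
  rw [e1, e2]
  simp

theorem ru_enc (p q : Fin (red I).n) :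
    (ru I.enc p q ∨ ru I.enc q p) ↔ (red I).G.Adj p q := by
  unfold ru
  rw [ct_enc, cu_enc, cm_enc]
  obtain ⟨v, rfl⟩ := (eqv (I.u + I.m + 2) I.u I.m).surjective p
  obtain ⟨w, rfl⟩ := (eqv (I.u + I.m + 2) I.u I.m).surjective q
  rw [eqv_val, eqv_val, ← up_iff (ri_enc I) v w, ← up_iff (ri_enc I) w v]
  change _ ↔ (Vx.gr (I.u + I.m + 2) I.inc).Adj ((eqv (I.u + I.m + 2) I.u I.m).symm _)
    ((eqv (I.u + I.m + 2) I.u I.m).symm _)
  rw [Equiv.symm_apply_apply, Equiv.symm_apply_apply]
  exact adj_iff.symm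

theorem out_eq : (red I).enc =
    (List.range (cn I.enc + cn I.enc * cn I.enc + ct I.enc * (ck I.enc + 3))).map
      (fun i => dec (ol I.enc i)) := by
  classical
  have hK : (red I).K = ct I.enc * (ck I.enc + 3) := by
    rw [ct_enc, ck_enc]
    rfl
  rw [← hK]
  apply List.ext_getElem?
  intro i
  rw [List.getElem?_map]
  unfold GraphNum.enc
  by_cases h1 : i < (red I).n
  · rw [List.getElem?_append_left (by simpa using h1), List.getElem?_replicate, if_pos h1,
      List.getElem?_range (by rw [cn_enc]; omega), Option.map_some]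
    unfold ol
    rw [cn_enc, if_pos h1]
    rfl
  rw [List.getElem?_append_right (by simpa using h1), List.length_replicate]
  by_cases h2 : i < (red I).n + (red I).n * (red I).n
  · have hp : i - (red I).n < (red I).n * (red I).n := by omega
    rw [List.getElem?_append_left (by simpa using hp), List.getElem?_ofFn, dif_pos hp,
      List.getElem?_range (by rw [cn_enc]; omega), Option.map_some]
    unfold ol
    rw [cn_enc, if_neg h1, if_pos h2]
    have h3 : (ru I.enc ((i - (red I).n) / (red I).n) ((i - (red I).n) % (red I).n) ∨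
        ru I.enc ((i - (red I).n) % (red I).n) ((i - (red I).n) / (red I).n)) ↔
        (red I).G.Adj (Fin.divNat ⟨_, hp⟩) (Fin.modNat ⟨_, hp⟩) :=
      ru_enc I (Fin.divNat ⟨_, hp⟩) (Fin.modNat ⟨_, hp⟩)
    by_cases h4 : (red I).G.Adj (Fin.divNat ⟨_, hp⟩) (Fin.modNat ⟨_, hp⟩)
    · rw [if_pos (h3.2 h4), decide_eq_true h4]
      rfl
    · rw [if_neg (fun h => h4 (h3.1 h)), decide_eq_false h4]
      rfl
  rw [List.getElem?_append_right (by simp; omega), List.length_ofFn]
  by_cases h3 : i < (red I).n + (red I).n * (red I).n + (red I).K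
  · rw [List.getElem?_replicate, if_pos (by omega),
      List.getElem?_range (by rw [cn_enc]; omega), Option.map_some]
    unfold ol
    rw [cn_enc, if_neg h1, if_neg h2]
    rfl
  · rw [List.getElem?_eq_none (by simp; omega),
      List.getElem?_eq_none (by rw [List.length_range, cn_enc]; omega)]
    rfl

end RedPoly

open RedPoly

theorem red_polyTime : Nonempty (TM2ComputableInPolyTime SetCover.enc GraphNum.enc red) := by
  obtain ⟨m, hm⟩ : UF (fun x (_ : ℕ → ℕ) => cn x + cn x * cn x + ct x * (ck x + 3)) :=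
    (UF_cn.add (UF_cn.mul UF_cn)).add (UF_ct.mul (UF_ck.add (UF.const 3)))
  obtain ⟨t, ht⟩ := UF_ol
  refine polyTime_of_terms SetCover.enc GraphNum.enc red m t 3 dec fun I => ?_
  rw [hm, out_eq]
  refine List.map_congr_left fun i _ => ?_
  rw [ht, dec_min]
  rfl

end Pool.Agent.MMD
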