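import Pool.Agent.MMD.Defs

/-!
# The mixed metric dimension is invariant under isomorphism
-/

set_option autoImplicit false

namespace Pool.Agent.MMD

variable {V W : Type} {G : SimpleGraph V} {H : SimpleGraph W}

theorem dist_le_iso (hG : G.Connected) (φ : G ≃g H) (a b : V) :
    H.dist (φ a) (φ b) ≤ G.dist a b := by
  obtain ⟨p, hp⟩ := hG.exists_walk_length_eq_dist a b
  rw [← hp, ← SimpleGraph.Walk.length_map φ.toHom p]
  exact SimpleGraph.dist_le _

theorem dist_iso (hG : G.Connected) (φ : G ≃g H) (a b : V) :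
    H.dist (φ a) (φ b) = G.dist a b := by
  refine le_antisymm (dist_le_iso hG φ a b) ?_
  have h := dist_le_iso (φ.connected_iff.1 hG) φ.symm (φ a) (φ b)
  simpa using h

/-- the elements of the graph -/
def elemMap (φ : G ≃g H) : V ⊕ G.edgeSet ≃ W ⊕ H.edgeSet := Equiv.sumCongr φ.toEquiv φ.mapEdgeSet

theorem elemDist_iso (hG : G.Connected) (φ : G ≃g H) (w : V) (p : V ⊕ G.edgeSet) :
    elemDist H (φ w) (elemMap φ p) = elemDist G w p := by
  rcases p with v | ⟨e, he⟩
  · exact dist_iso hG φ w v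
  · induction e using Sym2.ind with
    | _ a b =>
      change min (H.dist (φ w) (φ a)) (H.dist (φ w) (φ b)) = min (G.dist w a) (G.dist w b)
      rw [dist_iso hG φ, dist_iso hG φ]

theorem mixedResolving_map (hG : G.Connected) (φ : G ≃g H) {S : Finset V}
    (hS : MixedResolving G S) : MixedResolving H (S.map φ.toEquiv.toEmbedding) := by
  intro p q hpq
  obtain ⟨p, rfl⟩ := (elemMap φ).surjective p
  obtain ⟨q, rfl⟩ := (elemMap φ).surjective q
  obtain ⟨w, hw, h⟩ := hS p q (fun h => hpq (by rw [h]))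
  refine ⟨φ w, Finset.mem_map.2 ⟨w, hw, rfl⟩, ?_⟩
  rwa [elemDist_iso hG, elemDist_iso hG]

theorem mdim_iso (hG : G.Connected) (φ : G ≃g H) : mdim H = mdim G := by
  unfold mdim
  congr 1
  ext n
  constructor
  · rintro ⟨S, hS, rfl⟩
    exact ⟨_, mixedResolving_map (φ.connected_iff.1 hG) φ.symm hS, Finset.card_map _⟩
  · rintro ⟨S, hS, rfl⟩
    exact ⟨_, mixedResolving_map hG φ hS, Finset.card_map _⟩

theorem mdim_le {S : Finset V} (hS : MixedResolving G S) : mdim G ≤ S.card :=
  Nat.sInf_le ⟨S, hS, rfl⟩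

theorem exists_mdim {S : Finset V} (hS : MixedResolving G S) :
    ∃ T : Finset V, MixedResolving G T ∧ T.card = mdim G :=
  Nat.sInf_mem (s := {n | ∃ S : Finset V, MixedResolving G S ∧ S.card = n}) ⟨_, S, hS, rfl⟩

end Pool.Agent.MMD
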